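import Pool.Agent.H92.EQ.TT

set_option autoImplicit false

namespace Pool.Agent.H69.EQ

open Pool.Agent.H92.EQ

open scoped BigOperators ComplexConjugate ContDiff ComplexOrder
open MeasureTheory

noncomputable section

/-- the derivative of the Gaussian density in the variance -/
def Gd (s : ℝ) (t : ℂ) : ℝ := gs s t * (‖t‖ ^ 2 / s ^ 2 - 1 / s)

theorem gs_nonneg {s : ℝ} (hs : 0 < s) (t : ℂ) : 0 ≤ gs s t := by
  unfold gs
  positivity

theorem gs_s (t : ℂ) {s : ℝ} (hs : 0 < s) : HasDerivAt (fun s => gs s t) (Gd s t) s := by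
  have h1 : HasDerivAt (fun s : ℝ => (Real.pi * s)⁻¹) (-Real.pi / (Real.pi * s) ^ 2) s := by
    have h := ((hasDerivAt_id s).const_mul Real.pi).inv
      (by simp only [id]; positivity)
    exact h.congr_deriv (by simp)
  have h2 : HasDerivAt (fun s : ℝ => -‖t‖ ^ 2 / s) (‖t‖ ^ 2 / s ^ 2) s := by
    have h := (hasDerivAt_inv hs.ne').const_mul (-‖t‖ ^ 2)
    refine (h.congr_deriv ?_)
    field_simp
  have h3 := h1.mul h2.exp
  refine h3.congr_deriv ?_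
  unfold Gd gs
  field_simp
  ring

theorem gs_fd (s : ℝ) (c t : ℂ) : HasFDerivAt (fun t => gs s (t - c))
    ((-(2 / s) * gs s (t - c)) • innerSL ℝ (t - c)) t := by
  have h1 : HasFDerivAt (fun t : ℂ => ‖t - c‖ ^ 2) (2 • innerSL ℝ (t - c)) t := by
    have h := (hasStrictFDerivAt_norm_sq (t - c)).hasFDerivAt.comp t
      ((hasFDerivAt_id t).sub_const c)
    simpa [Function.comp_def] using h
  have h2 := (h1.const_mul (-(1 / s))).exp.const_mul ((Real.pi * s)⁻¹)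
  have h3 : (fun t : ℂ => (Real.pi * s)⁻¹ * Real.exp (-(1 / s) * ‖t - c‖ ^ 2)) =
      fun t => gs s (t - c) := by
    funext t
    unfold gs
    congr 2
    ring
  rw [h3] at h2
  refine h2.congr_fderiv ?_
  have h4 : Real.exp (-(1 / s) * ‖t - c‖ ^ 2) = Real.exp (-‖t - c‖ ^ 2 / s) := by
    congr 1
    ring
  ext v
  simp only [_root_.smul_apply, smul_eq_mul, nsmul_eq_mul]
  unfold gs
  rw [h4]
  push_cast
  ring

/-- the test functions -/
def Ts (s ε : ℝ) (c t : ℂ) : ℝ := gs s (t - c) - ε * gs s (t - 0)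

theorem ts_fd (s ε : ℝ) (c t : ℂ) : HasFDerivAt (fun t => Ts s ε c t)
    ((-(2 / s) * gs s (t - c)) • innerSL ℝ (t - c) -
      ε • ((-(2 / s) * gs s (t - 0)) • innerSL ℝ (t - 0))) t :=
  (gs_fd s c t).sub ((gs_fd s 0 t).const_mul ε)

theorem gs_fd2 (s : ℝ) (c v t : ℂ) : HasFDerivAt
    (fun t => -(2 / s) * gs s (t - c) * inner ℝ (t - c) v)
    ((-(2 / s) * inner ℝ (t - c) v) • ((-(2 / s) * gs s (t - c)) • innerSL ℝ (t - c)) +
      (-(2 / s) * gs s (t - c)) • innerSL ℝ v) t := by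
  have h1 := (gs_fd s c t).const_mul (-(2 / s))
  have h2 : HasFDerivAt (fun t : ℂ => inner ℝ (t - c) v) (innerSL ℝ v) t := by
    have h := (innerSL ℝ v).hasFDerivAt.comp t ((hasFDerivAt_id t).sub_const c)
    have h3 : (fun t : ℂ => inner ℝ (t - c) v) =
        (⇑(innerSL ℝ v) ∘ fun x : ℂ => id x - c) := by
      funext t
      simp only [Function.comp_apply, innerSL_apply_apply, id]
      exact real_inner_comm _ _
    rw [h3]
    simpa using h
  have h3 := h1.mul h2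
  refine h3.congr_fderiv ?_
  ext w
  simp only [_root_.smul_apply, _root_.add_apply, smul_eq_mul]
  ring

theorem inner_one (w : ℂ) : inner ℝ w (1 : ℂ) = w.re := by
  simp [Complex.inner]

theorem inner_I (w : ℂ) : inner ℝ w Complex.I = w.im := by
  simp [Complex.inner]

theorem lapl_ts {s : ℝ} (hs : 0 < s) (ε : ℝ) (c t : ℂ) :
    lapl (fun t => Ts s ε c t) t = Gd s (t - c) - ε * Gd s t := by
  unfold lapl
  have h1 : ∀ v : ℂ, (fun t => fderiv ℝ (fun t => Ts s ε c t) t v) = fun t =>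
      -(2 / s) * gs s (t - c) * inner ℝ (t - c) v -
        ε * (-(2 / s) * gs s (t - 0) * inner ℝ (t - 0) v) := by
    intro v
    funext t
    rw [(ts_fd s ε c t).fderiv]
    simp only [_root_.sub_apply, _root_.smul_apply, smul_eq_mul, innerSL_apply_apply]
  have h2 : ∀ v : ℂ, fderiv ℝ (fun t => fderiv ℝ (fun t => Ts s ε c t) t v) t v =
      ((-(2 / s) * inner ℝ (t - c) v) * ((-(2 / s) * gs s (t - c)) * inner ℝ (t - c) v) +
      (-(2 / s) * gs s (t - c)) * inner ℝ v v) -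
      ε * ((-(2 / s) * inner ℝ t v) * ((-(2 / s) * gs s t) * inner ℝ t v) +
      (-(2 / s) * gs s t) * inner ℝ v v) := by
    intro v
    rw [h1 v]
    have h3 : HasFDerivAt (fun t => -(2 / s) * gs s (t - c) * inner ℝ (t - c) v -
        ε * (-(2 / s) * gs s (t - 0) * inner ℝ (t - 0) v)) _ t :=
      (gs_fd2 s c v t).sub ((gs_fd2 s 0 v t).const_mul ε)
    rw [h3.fderiv]
    simp only [_root_.sub_apply, _root_.add_apply, _root_.smul_apply, smul_eq_mul,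
      innerSL_apply_apply, sub_zero]
  rw [h2 1, h2 Complex.I]
  have h4 : inner ℝ (1 : ℂ) (1 : ℂ) = 1 := by rw [inner_one]; simp
  have h5 : inner ℝ Complex.I Complex.I = 1 := by rw [inner_I]; simp
  rw [h4, h5, inner_one, inner_one, inner_I, inner_I]
  unfold Gd
  rw [Complex.sq_norm, Complex.sq_norm, Complex.normSq_apply, Complex.normSq_apply]
  field_simp
  ring

theorem ts_smooth (s ε : ℝ) (c : ℂ) : ContDiff ℝ ∞ (fun t => Ts s ε c t) := by
  have h1 : ∀ c : ℂ, ContDiff ℝ ∞ (fun t => gs s (t - c)) := by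
    intro c
    unfold gs
    have h2 : ContDiff ℝ ∞ (fun t : ℂ => ‖t - c‖ ^ 2) :=
      (contDiff_norm_sq ℝ).comp (contDiff_id.sub contDiff_const)
    exact contDiff_const.mul (Real.contDiff_exp.comp (h2.neg.div_const s))
  exact (h1 c).sub (contDiff_const.mul (h1 0))

theorem gs_le {s : ℝ} (hs : 0 < s) (t : ℂ) : gs s t ≤ (Real.pi * s)⁻¹ := by
  unfold gs
  have h1 : Real.exp (-‖t‖ ^ 2 / s) ≤ 1 := by
    apply Real.exp_le_one_iff.2
    rw [neg_div]
    have : 0 ≤ ‖t‖ ^ 2 / s := by positivity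
    linarith
  have h2 : 0 ≤ (Real.pi * s)⁻¹ := by positivity
  calc _ ≤ (Real.pi * s)⁻¹ * 1 := mul_le_mul_of_nonneg_left h1 h2
    _ = _ := mul_one _

theorem gs_norm_le {s : ℝ} (hs : 0 < s) (t : ℂ) :
    2 / s * gs s t * ‖t‖ ≤ (Real.pi * s)⁻¹ * (√s)⁻¹ := by
  have hq : 0 < √s := Real.sqrt_pos.2 hs
  have hqq : √s ^ 2 = s := Real.sq_sqrt hs.le
  obtain ⟨x, hx⟩ : ∃ x, x = ‖t‖ / √s := ⟨_, rfl⟩
  have hx2 : ‖t‖ ^ 2 / s = x ^ 2 := by rw [hx, div_pow, hqq]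
  have h1 : 2 * x ≤ Real.exp (x ^ 2) := by
    have := Real.add_one_le_exp (x ^ 2)
    nlinarith [sq_nonneg (x - 1)]
  have h2 : 2 * x * Real.exp (-x ^ 2) ≤ 1 := by
    rw [Real.exp_neg, ← div_eq_mul_inv, div_le_one (Real.exp_pos _)]
    exact h1
  have h3 : 2 / s * gs s t * ‖t‖ = (Real.pi * s)⁻¹ * (√s)⁻¹ * (2 * x * Real.exp (-x ^ 2)) := by
    unfold gs
    have h4 : -‖t‖ ^ 2 / s = -x ^ 2 := by rw [neg_div, hx2]
    have h5 : ‖t‖ = x * √s := by rw [hx]; field_simp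
    rw [h4, h5]
    have h6 : s⁻¹ = (√s)⁻¹ * (√s)⁻¹ := by
      rw [← mul_inv, ← pow_two, hqq]
    rw [div_eq_mul_inv 2 s, h6]
    field_simp
  rw [h3]
  have h7 : 0 ≤ (Real.pi * s)⁻¹ * (√s)⁻¹ := by positivity
  calc _ ≤ (Real.pi * s)⁻¹ * (√s)⁻¹ * 1 := mul_le_mul_of_nonneg_left h2 h7
    _ = _ := mul_one _

theorem int_exp {b : ℝ} (hb : 0 < b) : Integrable (fun t : ℂ => Real.exp (-b * ‖t‖ ^ 2)) := by
  have h := (GaussianFourier.integrable_cexp_neg_mul_sq_norm_add (b := (b : ℂ)) (V := ℂ)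
    (by simpa using hb) 0 0).norm
  refine h.congr (Filter.Eventually.of_forall fun t => ?_)
  dsimp only
  rw [Complex.norm_exp]
  congr 1
  simp [← Complex.ofReal_pow]

theorem int_poly {b : ℝ} (hb : 0 < b) :
    Integrable (fun t : ℂ => (1 + ‖t‖ ^ 2) * Real.exp (-b * ‖t‖ ^ 2)) := by
  have hi := (int_exp (half_pos hb)).const_mul (1 + 2 / b)
  refine hi.mono' (by fun_prop) (Filter.Eventually.of_forall fun t => ?_)
  rw [Real.norm_eq_abs, abs_of_nonneg (by positivity)]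
  have h1 : Real.exp (-b * ‖t‖ ^ 2) = Real.exp (-(b / 2) * ‖t‖ ^ 2) *
      Real.exp (-(b / 2) * ‖t‖ ^ 2) := by
    rw [← Real.exp_add]
    congr 1
    ring
  have h2 : (1 + ‖t‖ ^ 2) * Real.exp (-(b / 2) * ‖t‖ ^ 2) ≤ 1 + 2 / b := by
    rw [neg_mul, Real.exp_neg, ← div_eq_mul_inv, div_le_iff₀ (Real.exp_pos _)]
    have h3 := Real.add_one_le_exp (b / 2 * ‖t‖ ^ 2)
    have h4 : (1 + 2 / b) * (b / 2 * ‖t‖ ^ 2 + 1) =
        1 + ‖t‖ ^ 2 + (2 / b + b / 2 * ‖t‖ ^ 2) := by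
      field_simp
      ring
    have h5 : (1 + 2 / b) * (b / 2 * ‖t‖ ^ 2 + 1) ≤
        (1 + 2 / b) * Real.exp (b / 2 * ‖t‖ ^ 2) :=
      mul_le_mul_of_nonneg_left h3 (by positivity)
    have h6 : 0 ≤ 2 / b + b / 2 * ‖t‖ ^ 2 := by positivity
    linarith
  calc (1 + ‖t‖ ^ 2) * Real.exp (-b * ‖t‖ ^ 2) =
      ((1 + ‖t‖ ^ 2) * Real.exp (-(b / 2) * ‖t‖ ^ 2)) * Real.exp (-(b / 2) * ‖t‖ ^ 2) := by
        rw [h1]; ring
    _ ≤ (1 + 2 / b) * Real.exp (-(b / 2) * ‖t‖ ^ 2) :=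
        mul_le_mul_of_nonneg_right h2 (Real.exp_pos _).le

/-- the majorant -/
def ee (s : ℝ) (t : ℂ) : ℝ := (1 + ‖t‖ ^ 2) * Real.exp (-‖t‖ ^ 2 / s)

theorem ee_int {s : ℝ} (hs : 0 < s) : Integrable (ee s) := by
  refine (int_poly (b := 1 / s) (by positivity)).congr (Filter.Eventually.of_forall fun t => ?_)
  unfold ee
  dsimp only
  congr 2
  ring

theorem Gd_le {s1 s2 s : ℝ} (h1 : 0 < s1) (h2 : s1 ≤ s) (h3 : s ≤ s2) (t : ℂ) :
    |Gd s t| ≤ ((Real.pi * s1)⁻¹ * (1 / s1 ^ 2 + 1 / s1)) * ee s2 t := by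
  have hs : 0 < s := lt_of_lt_of_le h1 h2
  have hs2 : 0 < s2 := lt_of_lt_of_le hs h3
  unfold Gd
  rw [abs_mul, abs_of_nonneg (gs_nonneg hs t)]
  have e1 : gs s t ≤ (Real.pi * s1)⁻¹ * Real.exp (-‖t‖ ^ 2 / s2) := by
    unfold gs
    refine mul_le_mul ?_ ?_ (Real.exp_pos _).le (by positivity)
    · exact inv_anti₀ (by positivity) (mul_le_mul_of_nonneg_left h2 Real.pi_pos.le)
    · apply Real.exp_le_exp.2
      rw [neg_div, neg_div]
      exact neg_le_neg (div_le_div_of_nonneg_left (by positivity) hs h3)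
  have e2 : |‖t‖ ^ 2 / s ^ 2 - 1 / s| ≤ (1 / s1 ^ 2 + 1 / s1) * (1 + ‖t‖ ^ 2) := by
    have h4 : ‖t‖ ^ 2 / s ^ 2 ≤ ‖t‖ ^ 2 / s1 ^ 2 :=
      div_le_div_of_nonneg_left (by positivity) (by positivity) (by gcongr)
    have h5 : 1 / s ≤ 1 / s1 := one_div_le_one_div_of_le h1 h2
    have h6 : 0 ≤ ‖t‖ ^ 2 / s ^ 2 := by positivity
    have h7 : 0 ≤ 1 / s := by positivity
    have h8 : (1 / s1 ^ 2 + 1 / s1) * (1 + ‖t‖ ^ 2) =
        ‖t‖ ^ 2 / s1 ^ 2 + 1 / s1 + (1 / s1 ^ 2 + ‖t‖ ^ 2 / s1) := by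
      field_simp
      ring
    have h9 : 0 ≤ 1 / s1 ^ 2 + ‖t‖ ^ 2 / s1 := by positivity
    rw [abs_le]
    constructor
    · linarith
    · linarith
  calc gs s t * |‖t‖ ^ 2 / s ^ 2 - 1 / s| ≤ ((Real.pi * s1)⁻¹ * Real.exp (-‖t‖ ^ 2 / s2)) *
        ((1 / s1 ^ 2 + 1 / s1) * (1 + ‖t‖ ^ 2)) :=
        mul_le_mul e1 e2 (abs_nonneg _) (by positivity)
    _ = _ := by
        unfold ee
        ring

theorem Gd_meas : Measurable (fun p : ℝ × ℂ => Gd p.1 p.2) := by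
  unfold Gd gs
  fun_prop

theorem Gd_int {s : ℝ} (hs : 0 < s) : Integrable (Gd s) := by
  refine ((ee_int hs).const_mul ((Real.pi * s)⁻¹ * (1 / s ^ 2 + 1 / s))).mono' ?_ ?_
  · exact (Gd_meas.comp measurable_prodMk_left).aestronglyMeasurable
  · exact Filter.Eventually.of_forall fun t => Gd_le hs le_rfl le_rfl t

theorem gs_int {s : ℝ} (hs : 0 < s) : Integrable (gs s) := by
  refine ((ee_int hs).const_mul ((Real.pi * s)⁻¹)).mono' ?_ ?_
  · unfold gs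
    fun_prop
  · refine Filter.Eventually.of_forall fun t => ?_
    rw [Real.norm_eq_abs, abs_of_nonneg (gs_nonneg hs t)]
    unfold gs ee
    have h1 : 0 ≤ (Real.pi * s)⁻¹ := by positivity
    refine mul_le_mul_of_nonneg_left ?_ h1
    have h2 := (Real.exp_pos (-‖t‖ ^ 2 / s)).le
    nlinarith [sq_nonneg ‖t‖, mul_nonneg (sq_nonneg ‖t‖) h2]

theorem ts_fd_le {s : ℝ} (hs : 0 < s) (ε : ℝ) (c t : ℂ) :
    ‖fderiv ℝ (fun t => Ts s ε c t) t‖ ≤
      2 / s * gs s (t - c) * ‖t - c‖ + |ε| * (2 / s * gs s t * ‖t‖) := by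
  rw [(ts_fd s ε c t).fderiv]
  refine (norm_sub_le _ _).trans ?_
  rw [norm_smul, norm_smul, norm_smul, innerSL_apply_norm, innerSL_apply_norm, sub_zero,
    Real.norm_eq_abs, Real.norm_eq_abs, Real.norm_eq_abs, abs_mul, abs_mul, abs_neg,
    abs_of_nonneg (gs_nonneg hs _), abs_of_nonneg (gs_nonneg hs _),
    abs_of_nonneg (by positivity : 0 ≤ 2 / s)]

theorem gsn_le {s : ℝ} (hs : 0 < s) (t : ℂ) :
    2 / s * gs s t * ‖t‖ ≤ 2 / s * (Real.pi * s)⁻¹ * ee s t := by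
  unfold gs ee
  have h2 := (Real.exp_pos (-‖t‖ ^ 2 / s)).le
  have h3 : ‖t‖ ≤ 1 + ‖t‖ ^ 2 := by nlinarith [sq_nonneg (‖t‖ - 1), norm_nonneg t]
  have h4 : 0 ≤ 2 / s * (Real.pi * s)⁻¹ := by positivity
  calc 2 / s * ((Real.pi * s)⁻¹ * Real.exp (-‖t‖ ^ 2 / s)) * ‖t‖ =
      2 / s * (Real.pi * s)⁻¹ * (‖t‖ * Real.exp (-‖t‖ ^ 2 / s)) := by ring
    _ ≤ _ := mul_le_mul_of_nonneg_left (mul_le_mul_of_nonneg_right h3 h2) h4

theorem ts_fd_int {s : ℝ} (hs : 0 < s) (ε : ℝ) (c : ℂ) :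
    Integrable (fun t => ‖fderiv ℝ (fun t => Ts s ε c t) t‖) := by
  have hi : Integrable (fun t => 2 / s * (Real.pi * s)⁻¹ * ee s (t - c) +
      |ε| * (2 / s * (Real.pi * s)⁻¹ * ee s t)) :=
    (((ee_int hs).comp_sub_right c).const_mul _).add (((ee_int hs).const_mul _).const_mul _)
  refine hi.mono' ?_ (Filter.Eventually.of_forall fun t => ?_)
  · have h1 : Continuous (fderiv ℝ (fun t => Ts s ε c t)) :=
      (ts_smooth s ε c).continuous_fderiv (by simp)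
    exact h1.norm.aestronglyMeasurable
  · rw [norm_norm]
    refine (ts_fd_le hs ε c t).trans ?_
    exact add_le_add (gsn_le hs _) (mul_le_mul_of_nonneg_left (gsn_le hs _) (abs_nonneg _))

theorem ts_zero {s : ℝ} (hs : 0 < s) (c t : ℂ) : |Ts s 0 c t| ≤ (Real.pi * s)⁻¹ := by
  unfold Ts
  rw [zero_mul, sub_zero, abs_of_nonneg (gs_nonneg hs _)]
  exact gs_le hs _

theorem ts_one {s : ℝ} (hs : 0 < s) {c : ℂ} (hc : ‖c‖ ≤ 1) (t : ℂ) :
    |Ts s 1 c t| ≤ (Real.pi * s)⁻¹ * (√s)⁻¹ := by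
  have h1 : ‖gs s (t - c) - gs s (t - 0)‖ ≤ ((Real.pi * s)⁻¹ * (√s)⁻¹) * ‖(t - c) - (t - 0)‖ := by
    have hd : ∀ x : ℂ, HasFDerivAt (gs s) ((-(2 / s) * gs s x) • innerSL ℝ x) x := by
      intro x
      have h := gs_fd s 0 x
      simpa only [sub_zero] using h
    refine Convex.norm_image_sub_le_of_norm_fderiv_le (𝕜 := ℝ) (s := Set.univ) (f := gs s)
      (fun x _ => (hd x).differentiableAt) (fun x _ => ?_) convex_univ (Set.mem_univ _)
      (Set.mem_univ _)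
    rw [(hd x).fderiv, norm_smul, innerSL_apply_norm, Real.norm_eq_abs, abs_mul, abs_neg,
      abs_of_nonneg (gs_nonneg hs _), abs_of_nonneg (by positivity : 0 ≤ 2 / s)]
    exact gs_norm_le hs x
  unfold Ts
  rw [one_mul, ← Real.norm_eq_abs]
  refine h1.trans ?_
  have h2 : (t - c) - (t - 0) = -c := by ring
  rw [h2, norm_neg]
  have h3 : 0 ≤ (Real.pi * s)⁻¹ * (√s)⁻¹ := by positivity
  calc _ ≤ (Real.pi * s)⁻¹ * (√s)⁻¹ * 1 := mul_le_mul_of_nonneg_left hc h3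
    _ = _ := mul_one _

theorem Gd_cont (w : ℂ) {s1 s2 : ℝ} (h1 : 0 < s1) :
    ContinuousOn (fun s => Gd s w) (Set.Icc s1 s2) := by
  intro s hs
  have h2 : s ≠ 0 := (lt_of_lt_of_le h1 hs.1).ne'
  have h3 : Real.pi * s ≠ 0 := mul_ne_zero Real.pi_ne_zero h2
  have h4 : s ^ 2 ≠ 0 := pow_ne_zero 2 h2
  unfold Gd gs
  have : ContinuousAt (fun s : ℝ => (Real.pi * s)⁻¹ * Real.exp (-‖w‖ ^ 2 / s) *
      (‖w‖ ^ 2 / s ^ 2 - 1 / s)) s := by
    fun_prop (disch := assumption)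
  exact this.continuousWithinAt

theorem a_meas {t1 : ℂ} {a : ℂ → ℝ} (hac : ContinuousOn a {t1}ᶜ) :
    AEStronglyMeasurable a := by
  have h1 : AEStronglyMeasurable a (volume.restrict {t1}ᶜ) :=
    hac.aestronglyMeasurable isOpen_compl_singleton.measurableSet
  have h2 : (volume : Measure ℂ).restrict {t1}ᶜ = volume := by
    refine Measure.restrict_eq_self_of_ae_mem ?_
    filter_upwards [Measure.ae_ne (volume : Measure ℂ) t1] with t ht
    exact ht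
  rwa [h2] at h1

theorem main_id {t1 : ℂ} {a : ℂ → ℝ} {B : ℝ} (hac : ContinuousOn a {t1}ᶜ)
    (hab : ∀ t, t ≠ t1 → |a t| ≤ B) {s1 s2 : ℝ} (h1 : 0 < s1) (h2 : s1 ≤ s2) (ε : ℝ) (c : ℂ)
    (Kf : ℝ → ℝ) (hK : ∀ s, s1 ≤ s → s ≤ s2 →
      |∫ t, lapl (fun t => Ts s ε c t) t * a t| ≤ Kf s)
    (hKi : IntegrableOn Kf (Set.Ioc s1 s2)) :
    |∫ t, a t * (Ts s2 ε c t - Ts s1 ε c t)| ≤ ∫ s in Set.Ioc s1 s2, Kf s := by
  have hs2 : 0 < s2 := lt_of_lt_of_le h1 h2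
  have haM := a_meas hac
  have hB : 0 ≤ B := (abs_nonneg _).trans (hab (t1 + 1) (by simp))
  obtain ⟨C2, hC2⟩ : ∃ C2, C2 = (Real.pi * s1)⁻¹ * (1 / s1 ^ 2 + 1 / s1) := ⟨_, rfl⟩
  have hC20 : 0 ≤ C2 := by rw [hC2]; positivity
  obtain ⟨Φ, hΦ⟩ : ∃ Φ : ℝ × ℂ → ℝ,
      Φ = fun p => a p.2 * (Gd p.1 (p.2 - c) - ε * Gd p.1 p.2) := ⟨_, rfl⟩
  have hΦi : Integrable Φ ((volume.restrict (Set.Ioc s1 s2)).prod volume) := by
    have hdom : Integrable (fun t : ℂ => B * (C2 * ee s2 (t - c) + |ε| * (C2 * ee s2 t))) :=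
      ((((ee_int hs2).comp_sub_right c).const_mul C2).add
        (((ee_int hs2).const_mul C2).const_mul |ε|)).const_mul B
    have hdom2 : Integrable (fun p : ℝ × ℂ => (1 : ℝ) *
        (B * (C2 * ee s2 (p.2 - c) + |ε| * (C2 * ee s2 p.2))))
        ((volume.restrict (Set.Ioc s1 s2)).prod volume) :=
      (integrable_const (1 : ℝ)).mul_prod hdom
    refine hdom2.mono' ?_ ?_
    · rw [hΦ]
      have hm : Measurable (fun p : ℝ × ℂ => Gd p.1 (p.2 - c) - ε * Gd p.1 p.2) := by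
        have e1 : Measurable (fun p : ℝ × ℂ => Gd p.1 (p.2 - c)) :=
          Gd_meas.comp (measurable_fst.prodMk (measurable_snd.sub_const c))
        exact e1.sub (Gd_meas.const_mul ε)
      exact haM.comp_snd.mul hm.aestronglyMeasurable
    · have a1 : ∀ᵐ p : ℝ × ℂ ∂((volume.restrict (Set.Ioc s1 s2)).prod volume),
          p.1 ∈ Set.Ioc s1 s2 :=
        Measure.quasiMeasurePreserving_fst.ae (ae_restrict_mem measurableSet_Ioc)
      have a2 : ∀ᵐ p : ℝ × ℂ ∂((volume.restrict (Set.Ioc s1 s2)).prod volume),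
          p.2 ≠ t1 :=
        Measure.quasiMeasurePreserving_snd.ae (Measure.ae_ne (volume : Measure ℂ) t1)
      filter_upwards [a1, a2] with p hp1 hp2
      rw [hΦ]
      dsimp only
      rw [Real.norm_eq_abs, abs_mul, one_mul]
      refine mul_le_mul (hab _ hp2) ?_ (abs_nonneg _) hB
      refine (abs_sub _ _).trans ?_
      rw [abs_mul]
      have e1 := Gd_le h1 hp1.1.le hp1.2 (p.2 - c)
      have e2 := Gd_le h1 hp1.1.le hp1.2 p.2
      rw [← hC2] at e1 e2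
      exact add_le_add e1 (mul_le_mul_of_nonneg_left e2 (abs_nonneg _))
  have e1 : ∀ t, a t * (Ts s2 ε c t - Ts s1 ε c t) = ∫ s in Set.Ioc s1 s2, Φ (s, t) := by
    intro t
    rw [hΦ]
    dsimp only
    rw [integral_const_mul, ← intervalIntegral.integral_of_le h2]
    congr 1
    symm
    refine intervalIntegral.integral_eq_sub_of_hasDerivAt (f := fun s => Ts s ε c t) ?_ ?_
    · intro s hs
      rw [Set.uIcc_of_le h2] at hs
      have hs0 : 0 < s := lt_of_lt_of_le h1 hs.1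
      unfold Ts
      simp only [sub_zero]
      exact (gs_s (t - c) hs0).sub ((gs_s t hs0).const_mul ε)
    · refine ContinuousOn.intervalIntegrable ?_
      rw [Set.uIcc_of_le h2]
      exact (Gd_cont (t - c) h1).sub ((Gd_cont t h1).const_smul ε)
  have e2 : ∫ t, a t * (Ts s2 ε c t - Ts s1 ε c t) =
      ∫ s in Set.Ioc s1 s2, ∫ t, Φ (s, t) := by
    rw [integral_congr_ae (Filter.Eventually.of_forall e1)]
    exact (integral_integral_swap (f := fun s t => Φ (s, t)) hΦi).symm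
  rw [e2, ← Real.norm_eq_abs]
  refine norm_integral_le_of_norm_le hKi ?_
  refine (ae_restrict_mem measurableSet_Ioc).mono fun s hs => ?_
  have h3 := hK s hs.1.le hs.2
  rw [Real.norm_eq_abs]
  have h4 : ∫ t, Φ (s, t) = ∫ t, lapl (fun t => Ts s ε c t) t * a t := by
    refine integral_congr_ae (Filter.Eventually.of_forall fun t => ?_)
    rw [hΦ]
    dsimp only
    rw [lapl_ts (lt_trans h1 hs.1) ε c t]
    ring
  rw [h4]
  exact h3

theorem int_k0 {s1 : ℝ} (h1 : 0 < s1) (h2 : s1 ≤ 1) :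
    IntegrableOn (fun s : ℝ => (Real.pi * s)⁻¹) (Set.Ioc s1 1) ∧
      ∫ s in Set.Ioc s1 1, (Real.pi * s)⁻¹ = Real.pi⁻¹ * Real.log (1 / s1) := by
  constructor
  · refine (ContinuousOn.integrableOn_Icc ?_).mono_set Set.Ioc_subset_Icc_self
    intro s hs
    have h3 : s ≠ 0 := (lt_of_lt_of_le h1 hs.1).ne'
    have h4 : Real.pi * s ≠ 0 := mul_ne_zero Real.pi_ne_zero h3
    have : ContinuousAt (fun s : ℝ => (Real.pi * s)⁻¹) s := by
      fun_prop (disch := assumption)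
    exact this.continuousWithinAt
  · rw [← intervalIntegral.integral_of_le h2]
    simp only [mul_inv]
    rw [intervalIntegral.integral_const_mul, integral_inv_of_pos h1 one_pos]

theorem int_k1 {T : ℝ} (hT : 1 ≤ T) :
    IntegrableOn (fun s : ℝ => (Real.pi * s)⁻¹ * (√s)⁻¹) (Set.Ioc 1 T) ∧
      ∫ s in Set.Ioc 1 T, (Real.pi * s)⁻¹ * (√s)⁻¹ ≤ 2 * Real.pi⁻¹ := by
  have hc : ContinuousOn (fun s : ℝ => (Real.pi * s)⁻¹ * (√s)⁻¹) (Set.Icc 1 T) := by
    intro s hs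
    have h3 : s ≠ 0 := (lt_of_lt_of_le one_pos hs.1).ne'
    have h4 : Real.pi * s ≠ 0 := mul_ne_zero Real.pi_ne_zero h3
    have h5 : √s ≠ 0 := (Real.sqrt_pos.2 (lt_of_lt_of_le one_pos hs.1)).ne'
    have : ContinuousAt (fun s : ℝ => (Real.pi * s)⁻¹ * (√s)⁻¹) s := by
      fun_prop (disch := assumption)
    exact this.continuousWithinAt
  constructor
  · exact (hc.integrableOn_Icc).mono_set Set.Ioc_subset_Icc_self
  · rw [← intervalIntegral.integral_of_le hT]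
    have h1 : ∫ s in (1 : ℝ)..T, (Real.pi * s)⁻¹ * (√s)⁻¹ =
        (-2 * Real.pi⁻¹ * (√T)⁻¹) - (-2 * Real.pi⁻¹ * (√1)⁻¹) := by
      refine intervalIntegral.integral_eq_sub_of_hasDerivAt
        (f := fun s => -2 * Real.pi⁻¹ * (√s)⁻¹) ?_ ?_
      · intro s hs
        rw [Set.uIcc_of_le hT] at hs
        have hs0 : 0 < s := lt_of_lt_of_le one_pos hs.1
        have hq : 0 < √s := Real.sqrt_pos.2 hs0
        have hqq : √s ^ 2 = s := Real.sq_sqrt hs0.le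
        have h := ((Real.hasDerivAt_sqrt hs0.ne').inv hq.ne').const_mul (-2 * Real.pi⁻¹)
        refine h.congr_deriv ?_
        rw [hqq]
        field_simp
      · refine ContinuousOn.intervalIntegrable ?_
        rw [Set.uIcc_of_le hT]
        exact hc
    rw [h1, Real.sqrt_one]
    have h2 : 0 ≤ 2 * Real.pi⁻¹ * (√T)⁻¹ := by positivity
    linarith


theorem exp_diff (x y : ℝ) :
    |Real.exp (-x) - Real.exp (-y)| ≤ |x - y| * Real.exp (-x) + |x - y| * Real.exp (-y) := by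
  have key : ∀ x y : ℝ, Real.exp (-x) - Real.exp (-y) ≤ |x - y| * Real.exp (-x) := by
    intro x y
    have h1 : Real.exp (-y) = Real.exp (-x) * Real.exp (x - y) := by
      rw [← Real.exp_add]
      congr 1
      ring
    have h2 := Real.add_one_le_exp (x - y)
    have h3 := Real.exp_pos (-x)
    have h4 : -(x - y) ≤ |x - y| := neg_le_abs _
    rw [h1]
    nlinarith [mul_le_mul_of_nonneg_left h2 h3.le, mul_le_mul_of_nonneg_left h4 h3.le]
  have h1 := key x y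
  have h2 := key y x
  rw [abs_sub_comm y x] at h2
  have h3 : 0 ≤ |x - y| * Real.exp (-x) := by positivity
  have h4 : 0 ≤ |x - y| * Real.exp (-y) := by positivity
  rw [abs_le]
  constructor
  · linarith
  · linarith

/-- the profile -/
def kk (u : ℂ) : ℝ := (2 * ‖u‖ + 1) * Real.exp (-‖u‖ ^ 2)

theorem kk_int : Integrable kk := by
  refine ((ee_int one_pos).const_mul 3).mono' ?_ (Filter.Eventually.of_forall fun u => ?_)
  · unfold kk
    fun_prop
  · unfold kk ee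
    rw [Real.norm_eq_abs, abs_of_nonneg (by positivity), div_one, ← mul_assoc]
    refine mul_le_mul_of_nonneg_right ?_ (Real.exp_pos _).le
    nlinarith [sq_nonneg (‖u‖ - 1), norm_nonneg u]

/-- the majorant of the difference of two translates -/
def mm (T : ℝ) (t : ℂ) : ℝ := (Real.pi * T)⁻¹ * (√T)⁻¹ * kk ((√T)⁻¹ • t)

theorem mm_int {T : ℝ} (hT : 1 ≤ T) :
    Integrable (mm T) ∧ ∫ t, mm T t = Real.pi⁻¹ * (√T)⁻¹ * ∫ u, kk u := by
  have hT0 : 0 < T := lt_of_lt_of_le one_pos hT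
  have hq : 0 < √T := Real.sqrt_pos.2 hT0
  have hqq : √T ^ 2 = T := Real.sq_sqrt hT0.le
  constructor
  · unfold mm
    exact ((integrable_comp_smul_iff (volume : Measure ℂ) kk (inv_pos.2 hq).ne').2
      kk_int).const_mul _
  · unfold mm
    rw [integral_const_mul, Measure.integral_comp_smul (volume : Measure ℂ) kk,
      Complex.finrank_real_complex, smul_eq_mul, inv_pow, inv_inv, hqq, abs_of_pos hT0]
    field_simp

theorem hh_le {T : ℝ} (hT : 1 ≤ T) (t : ℂ) :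
    (Real.pi * T)⁻¹ * ((2 * ‖t‖ + 1) / T * Real.exp (-(‖t‖ ^ 2 / T))) ≤ mm T t := by
  have hT0 : 0 < T := lt_of_lt_of_le one_pos hT
  have hq : 0 < √T := Real.sqrt_pos.2 hT0
  have hqq : √T ^ 2 = T := Real.sq_sqrt hT0.le
  have hq1 : 1 ≤ √T := Real.one_le_sqrt.2 hT
  unfold mm kk
  rw [norm_smul, Real.norm_eq_abs, abs_of_pos (inv_pos.2 hq), mul_assoc]
  refine mul_le_mul_of_nonneg_left ?_ (by positivity)
  have h1 : -(((√T)⁻¹ * ‖t‖) ^ 2) = -(‖t‖ ^ 2 / T) := by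
    rw [mul_pow, inv_pow, hqq]
    ring
  rw [h1, ← mul_assoc]
  refine mul_le_mul_of_nonneg_right ?_ (Real.exp_pos _).le
  have h2 : (√T)⁻¹ * (2 * ((√T)⁻¹ * ‖t‖) + 1) = (2 * ‖t‖ + √T) / T := by
    have : T⁻¹ = (√T)⁻¹ * (√T)⁻¹ := by rw [← mul_inv, ← pow_two, hqq]
    rw [div_eq_mul_inv, this]
    field_simp
  rw [h2]
  gcongr

theorem diff_le {T : ℝ} (hT : 1 ≤ T) {c : ℂ} (hc : ‖c‖ ≤ 1) (t : ℂ) :
    |Ts T 1 c t| ≤ mm T (t - c) + mm T t := by
  have hT0 : 0 < T := lt_of_lt_of_le one_pos hT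
  have h0 : Ts T 1 c t = (Real.pi * T)⁻¹ *
      (Real.exp (-(‖t - c‖ ^ 2 / T)) - Real.exp (-(‖t‖ ^ 2 / T))) := by
    unfold Ts gs
    rw [sub_zero, neg_div, neg_div]
    ring
  have h1 : |‖t - c‖ - ‖t‖| ≤ 1 := by
    refine (abs_norm_sub_norm_le _ _).trans ?_
    rw [sub_sub_cancel_left, norm_neg]
    exact hc
  obtain ⟨h1a, h1b⟩ := abs_le.1 h1
  have h2 : |‖t - c‖ ^ 2 / T - ‖t‖ ^ 2 / T| ≤ (‖t - c‖ + ‖t‖) / T := by
    rw [← sub_div, abs_div, abs_of_pos hT0]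
    refine div_le_div_of_nonneg_right ?_ hT0.le
    rw [sq_sub_sq, abs_mul, abs_of_nonneg (by positivity)]
    calc _ ≤ (‖t - c‖ + ‖t‖) * 1 := mul_le_mul_of_nonneg_left h1 (by positivity)
      _ = _ := mul_one _
  have h3 := exp_diff (‖t - c‖ ^ 2 / T) (‖t‖ ^ 2 / T)
  have h4 : |‖t - c‖ ^ 2 / T - ‖t‖ ^ 2 / T| ≤ (2 * ‖t - c‖ + 1) / T := by
    refine h2.trans (div_le_div_of_nonneg_right ?_ hT0.le)
    linarith
  have h5 : |‖t - c‖ ^ 2 / T - ‖t‖ ^ 2 / T| ≤ (2 * ‖t‖ + 1) / T := by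
    refine h2.trans (div_le_div_of_nonneg_right ?_ hT0.le)
    linarith
  have hp : 0 ≤ (Real.pi * T)⁻¹ := by positivity
  rw [h0, abs_mul, abs_of_nonneg hp]
  calc (Real.pi * T)⁻¹ * |Real.exp (-(‖t - c‖ ^ 2 / T)) - Real.exp (-(‖t‖ ^ 2 / T))| ≤
      (Real.pi * T)⁻¹ * ((2 * ‖t - c‖ + 1) / T * Real.exp (-(‖t - c‖ ^ 2 / T)) +
        (2 * ‖t‖ + 1) / T * Real.exp (-(‖t‖ ^ 2 / T))) := by
        refine mul_le_mul_of_nonneg_left (h3.trans ?_) hp
        exact add_le_add (mul_le_mul_of_nonneg_right h4 (Real.exp_pos _).le)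
          (mul_le_mul_of_nonneg_right h5 (Real.exp_pos _).le)
    _ = (Real.pi * T)⁻¹ * ((2 * ‖t - c‖ + 1) / T * Real.exp (-(‖t - c‖ ^ 2 / T))) +
        (Real.pi * T)⁻¹ * ((2 * ‖t‖ + 1) / T * Real.exp (-(‖t‖ ^ 2 / T))) := by ring
    _ ≤ _ := add_le_add (hh_le hT _) (hh_le hT _)

theorem ats_int {t1 : ℂ} {a : ℂ → ℝ} {B : ℝ} (hac : ContinuousOn a {t1}ᶜ)
    (hab : ∀ t, t ≠ t1 → |a t| ≤ B) {s : ℝ} (hs : 0 < s) (ε : ℝ) (c : ℂ) :
    Integrable (fun t => a t * Ts s ε c t) := by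
  have h1 : Integrable (fun t => Ts s ε c t) := by
    unfold Ts
    exact ((gs_int hs).comp_sub_right c).sub (((gs_int hs).comp_sub_right 0).const_mul ε)
  refine h1.bdd_mul (c := B) (a_meas hac) ?_
  filter_upwards [Measure.ae_ne (volume : Measure ℂ) t1] with t ht
  exact hab t ht

theorem tail_le {t1 : ℂ} {a : ℂ → ℝ} {B : ℝ} (hac : ContinuousOn a {t1}ᶜ)
    (hab : ∀ t, t ≠ t1 → |a t| ≤ B) {T : ℝ} (hT : 1 ≤ T) {c : ℂ} (hc : ‖c‖ ≤ 1) :
    |∫ t, a t * Ts T 1 c t| ≤ 2 * B * Real.pi⁻¹ * (∫ u, kk u) * (√T)⁻¹ := by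
  have hB : 0 ≤ B := (abs_nonneg _).trans (hab (t1 + 1) (by simp))
  obtain ⟨hi, he⟩ := mm_int hT
  have h1 : Integrable (fun t => B * (mm T (t - c) + mm T t)) :=
    ((hi.comp_sub_right c).add hi).const_mul B
  rw [← Real.norm_eq_abs]
  refine (norm_integral_le_of_norm_le h1 ?_).trans (le_of_eq ?_)
  · filter_upwards [Measure.ae_ne (volume : Measure ℂ) t1] with t ht
    rw [norm_mul]
    exact mul_le_mul (hab t ht) (diff_le hT hc t) (norm_nonneg _) hB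
  · rw [integral_const_mul, integral_add (hi.comp_sub_right c) hi,
      integral_sub_right_eq_self (mm T) c, he]
    ring

/-- TL: the heat flow. -/
theorem pf_TL : T_TL := by
  refine ⟨4 * Real.pi⁻¹, by positivity, ?_⟩
  intro t1 c a B M θ hac hab hM hc hθ hθ1 hyp
  have hyp' : ∀ s ε K : ℝ, 0 < s → (∀ t, |Ts s ε c t| ≤ K) →
      |∫ t, lapl (fun t => Ts s ε c t) t * a t| ≤ 2 * K * M := by
    intro s ε K hs hK
    refine hyp (fun t => Ts s ε c t) K ((1 + |ε|) * ((Real.pi * s)⁻¹ * (√s)⁻¹))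
      (ts_smooth s ε c) hK ?_ (ts_fd_int hs ε c) ?_
    · intro t
      refine (ts_fd_le hs ε c t).trans ?_
      have h1 := gs_norm_le hs (t - c)
      have h2 := mul_le_mul_of_nonneg_left (gs_norm_le hs t) (abs_nonneg ε)
      linarith
    · have h1 : (fun t => lapl (fun t => Ts s ε c t) t) = fun t => Gd s (t - c) - ε * Gd s t := by
        funext t
        exact lapl_ts hs ε c t
      rw [h1]
      exact ((Gd_int hs).comp_sub_right c).sub ((Gd_int hs).const_mul ε)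
  have hF : ∀ T : ℝ, 1 ≤ T → |∫ t, a t * Ts 1 1 c t| ≤
      2 * B * Real.pi⁻¹ * (∫ u, kk u) * (√T)⁻¹ + 4 * Real.pi⁻¹ * M := by
    intro T hT
    obtain ⟨hk1, hk2⟩ := int_k1 hT
    have h1 := main_id hac hab one_pos hT 1 c (fun s => 2 * M * ((Real.pi * s)⁻¹ * (√s)⁻¹))
      (by
        intro s hs _
        have hs0 : 0 < s := lt_of_lt_of_le one_pos hs
        have h2 := hyp' s 1 _ hs0 (ts_one hs0 hc)
        calc _ ≤ _ := h2
          _ = _ := by ring) (hk1.const_mul (2 * M))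
    rw [integral_const_mul] at h1
    have h3 : ∫ t, a t * (Ts T 1 c t - Ts 1 1 c t) =
        (∫ t, a t * Ts T 1 c t) - ∫ t, a t * Ts 1 1 c t := by
      rw [← integral_sub (ats_int hac hab (lt_of_lt_of_le one_pos hT) 1 c)
        (ats_int hac hab one_pos 1 c)]
      exact integral_congr_ae (Filter.Eventually.of_forall fun t => by ring)
    rw [h3] at h1
    have h4 := tail_le hac hab hT hc
    have h5 := abs_sub_abs_le_abs_sub (∫ t, a t * Ts 1 1 c t) (∫ t, a t * Ts T 1 c t)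
    rw [abs_sub_comm] at h5
    have h6 : 2 * M * ∫ s in Set.Ioc 1 T, (Real.pi * s)⁻¹ * (√s)⁻¹ ≤
        2 * M * (2 * Real.pi⁻¹) := mul_le_mul_of_nonneg_left hk2 (by linarith)
    linarith
  have hF1 : |∫ t, a t * Ts 1 1 c t| ≤ 4 * Real.pi⁻¹ * M := by
    have hlim : Filter.Tendsto (fun T : ℝ => 2 * B * Real.pi⁻¹ * (∫ u, kk u) * (√T)⁻¹ +
        4 * Real.pi⁻¹ * M) Filter.atTop
        (nhds (2 * B * Real.pi⁻¹ * (∫ u, kk u) * 0 + 4 * Real.pi⁻¹ * M)) :=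
      ((tendsto_inv_atTop_zero.comp Real.tendsto_sqrt_atTop).const_mul _).add_const _
    rw [mul_zero, zero_add] at hlim
    refine ge_of_tendsto hlim ?_
    filter_upwards [Filter.eventually_ge_atTop (1 : ℝ)] with T hT
    exact hF T hT
  have hθ2 : 0 < θ ^ 2 := by positivity
  have hθ3 : θ ^ 2 ≤ 1 := by nlinarith
  obtain ⟨hk1, hk2⟩ := int_k0 hθ2 hθ3
  have hG := main_id hac hab hθ2 hθ3 0 c (fun s => 2 * M * (Real.pi * s)⁻¹) (by
      intro s hs _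
      have hs0 : 0 < s := lt_of_lt_of_le hθ2 hs
      have h2 := hyp' s 0 _ hs0 (ts_zero hs0 c)
      calc _ ≤ _ := h2
        _ = _ := by ring) (hk1.const_mul (2 * M))
  rw [integral_const_mul, hk2] at hG
  have hlog : Real.log (1 / θ ^ 2) = 2 * Real.log (1 / θ) := by
    rw [one_div, one_div, Real.log_inv, Real.log_inv, Real.log_pow]
    push_cast
    ring
  rw [hlog] at hG
  have hsplit : ∫ t, a t * (gs (θ ^ 2) (t - c) - gs 1 t) =
      (∫ t, a t * Ts 1 1 c t) - ∫ t, a t * (Ts 1 0 c t - Ts (θ ^ 2) 0 c t) := by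
    have hi2 : Integrable (fun t => a t * (Ts 1 0 c t - Ts (θ ^ 2) 0 c t)) := by
      have h := (ats_int hac hab one_pos 0 c).sub (ats_int hac hab hθ2 0 c)
      refine h.congr (Filter.Eventually.of_forall fun t => ?_)
      show a t * Ts 1 0 c t - a t * Ts (θ ^ 2) 0 c t = _
      ring
    rw [← integral_sub (ats_int hac hab one_pos 1 c) hi2]
    refine integral_congr_ae (Filter.Eventually.of_forall fun t => ?_)
    unfold Ts
    dsimp only
    rw [sub_zero]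
    ring
  rw [hsplit]
  refine (abs_sub _ _).trans ?_
  calc _ ≤ 4 * Real.pi⁻¹ * M + 2 * M * (Real.pi⁻¹ * (2 * Real.log (1 / θ))) :=
        add_le_add hF1 hG
    _ = _ := by ring

end

end Pool.Agent.H69.EQ
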