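import Pool.Agent.H92.EQ.TT

set_option autoImplicit false

namespace Pool.Agent.H69.EQ

open Pool.Agent.H92.EQ

open scoped BigOperators ComplexConjugate ContDiff ComplexOrder
open MeasureTheory

noncomputable section

variable {N : ℕ}

theorem rep_apply (X : Fin N → Fin N → ℂ) (i j : Fin N) (t : ℂ) (k l : Fin N) :
    rep X i j t k l = if k = i ∧ l = j then t else X k l := by
  unfold rep
  by_cases hk : k = i
  · subst hk
    rw [Function.update_self]
    by_cases hl : l = j
    · subst hl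
      rw [Function.update_self, if_pos ⟨rfl, rfl⟩]
    · rw [Function.update_of_ne hl, if_neg fun h => hl h.2]
  · rw [Function.update_of_ne hk, if_neg fun h => hk h.1]

/-- exchange the entry with the last variable -/
def tau (i j : Fin N) : ((Fin N → Fin N → ℂ) × ℂ) →ₗ[ℝ] ((Fin N → Fin N → ℂ) × ℂ) where
  toFun p := (rep p.1 i j p.2, p.1 i j)
  map_add' p q := by
    refine Prod.ext ?_ rfl
    funext k l
    show rep (p.1 + q.1) i j (p.2 + q.2) k l = rep p.1 i j p.2 k l + rep q.1 i j q.2 k l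
    rw [rep_apply, rep_apply, rep_apply]
    split_ifs
    · rfl
    · rfl
  map_smul' r p := by
    refine Prod.ext ?_ rfl
    funext k l
    show rep (r • p.1) i j (r • p.2) k l = r • rep p.1 i j p.2 k l
    rw [rep_apply, rep_apply]
    split_ifs
    · rfl
    · rfl

theorem tau_tau (i j : Fin N) (p : (Fin N → Fin N → ℂ) × ℂ) : tau i j (tau i j p) = p := by
  refine Prod.ext ?_ ?_
  · funext k l
    show rep (rep p.1 i j p.2) i j (p.1 i j) k l = p.1 k l
    rw [rep_apply, rep_apply]
    split_ifs with h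
    · rw [h.1, h.2]
    · rfl
  · show rep p.1 i j p.2 i j = p.2
    rw [rep_apply, if_pos ⟨rfl, rfl⟩]

theorem haar1 (N : ℕ) : (volume : Measure (Fin N → Fin N → ℂ)).IsAddHaarMeasure :=
  Measure.pi.isAddHaarMeasure (fun _ => (volume : Measure (Fin N → ℂ)))

theorem haar2 (N : ℕ) : (volume : Measure ((Fin N → Fin N → ℂ) × ℂ)).IsAddHaarMeasure := by
  have := haar1 N
  exact Measure.prod.instIsAddHaarMeasure (volume : Measure (Fin N → Fin N → ℂ))
    (volume : Measure ℂ)

theorem tau_mp (i j : Fin N) : MeasurePreserving (tau i j) := by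
  have hdet : LinearMap.det (tau i j) * LinearMap.det (tau i j) = 1 := by
    rw [← LinearMap.det_comp]
    have : (tau i j).comp (tau i j) = LinearMap.id := LinearMap.ext (tau_tau i j)
    rw [this, LinearMap.det_id]
  have hne : LinearMap.det (tau i j) ≠ 0 := by
    intro h
    rw [h] at hdet
    simp at hdet
  have := haar2 N
  refine ⟨(LinearMap.continuous_of_finiteDimensional _).measurable, ?_⟩
  rw [Measure.map_linearMap_addHaar_eq_smul_addHaar _ hne]
  have habs : |(LinearMap.det (tau i j))⁻¹| = 1 := by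
    rw [abs_inv]
    have h1 : |LinearMap.det (tau i j)| * |LinearMap.det (tau i j)| = 1 := by
      rw [← abs_mul, hdet, abs_one]
    have h2 : |LinearMap.det (tau i j)| = 1 := by nlinarith [abs_nonneg (LinearMap.det (tau i j))]
    rw [h2, inv_one]
  rw [habs, ENNReal.ofReal_one, one_smul]

/-- probability densities -/
def Den (f : ℂ → ℝ) : Prop := (∀ t, 0 ≤ f t) ∧ Integrable f ∧ ∫ t, f t = 1

theorem w_int {R : Fin N → Fin N → ℂ → ℝ} (h : ∀ i j, Den (R i j)) :
    Integrable (fun X : Fin N → Fin N → ℂ => ∏ i, ∏ j, R i j (X i j)) ∧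
      ∫ X : Fin N → Fin N → ℂ, ∏ i, ∏ j, R i j (X i j) = 1 := by
  have h1 : ∀ i, Integrable (fun x : Fin N → ℂ => ∏ j, R i j (x j)) := fun i =>
    Integrable.fintype_prod fun j => (h i j).2.1
  constructor
  · exact Integrable.fintype_prod (f := fun i (x : Fin N → ℂ) => ∏ j, R i j (x j)) h1
  · rw [integral_fintype_prod_volume_eq_prod (fun i (x : Fin N → ℂ) => ∏ j, R i j (x j))]
    refine Finset.prod_eq_one fun i _ => ?_
    rw [integral_fintype_prod_volume_eq_prod]
    exact Finset.prod_eq_one fun j _ => (h i j).2.2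

/-- the product of the other factors -/
def Oth (R : Fin N → Fin N → ℂ → ℝ) (i j : Fin N) (X : Fin N → Fin N → ℂ) : ℝ :=
  ∏ q ∈ (Finset.univ : Finset (Fin N × Fin N)).erase (i, j), R q.1 q.2 (X q.1 q.2)

theorem w_split (R : Fin N → Fin N → ℂ → ℝ) (i j : Fin N) (X : Fin N → Fin N → ℂ) :
    ∏ i, ∏ j, R i j (X i j) = R i j (X i j) * Oth R i j X := by
  rw [← Fintype.prod_prod_type' (fun i j => R i j (X i j)),
    ← Finset.mul_prod_erase Finset.univ _ (Finset.mem_univ (i, j))]
  rfl

theorem oth_rep (R : Fin N → Fin N → ℂ → ℝ) (i j : Fin N) (X : Fin N → Fin N → ℂ) (t : ℂ) :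
    Oth R i j (rep X i j t) = Oth R i j X := by
  unfold Oth
  refine Finset.prod_congr rfl fun q hq => ?_
  rw [rep_apply, if_neg]
  rintro ⟨h1, h2⟩
  exact (Finset.mem_erase.1 hq).1 (Prod.ext h1 h2)

theorem bw_int {b : (Fin N → Fin N → ℂ) → ℝ} {B : ℝ} (hb : AEStronglyMeasurable b)
    (hB : ∀ᵐ X, |b X| ≤ B) {R : Fin N → Fin N → ℂ → ℝ} (h : ∀ i j, Den (R i j)) :
    Integrable (fun X : Fin N → Fin N → ℂ => b X * ∏ i, ∏ j, R i j (X i j)) :=
  (w_int h).1.bdd_mul hb (by simpa only [Real.norm_eq_abs] using hB)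

theorem step {b : (Fin N → Fin N → ℂ) → ℝ} {B K : ℝ} (hb : AEStronglyMeasurable b)
    (hB : ∀ᵐ X, |b X| ≤ B) {R R' : Fin N → Fin N → ℂ → ℝ} (h : ∀ i j, Den (R i j))
    (h' : ∀ i j, Den (R' i j)) (i j : Fin N) (hR : ∀ k l, (k, l) ≠ (i, j) → R k l = R' k l)
    (hK : ∀ᵐ X, |∫ t, b (rep X i j t) * (R i j t - R' i j t)| ≤ K) :
    |(∫ X, b X * ∏ i, ∏ j, R i j (X i j)) - ∫ X, b X * ∏ i, ∏ j, R' i j (X i j)| ≤ K := by
  have hoth : ∀ X, Oth R' i j X = Oth R i j X := by
    intro X
    unfold Oth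
    refine Finset.prod_congr rfl fun q hq => ?_
    rw [hR q.1 q.2 (Finset.mem_erase.1 hq).1]
  obtain ⟨D, hD⟩ : ∃ D : ℂ → ℝ, D = fun t => R i j t - R' i j t := ⟨_, rfl⟩
  obtain ⟨W, hW⟩ : ∃ W : (Fin N → Fin N → ℂ) → ℝ, W = fun X => ∏ i, ∏ j, R i j (X i j) :=
    ⟨_, rfl⟩
  obtain ⟨bd, hbd⟩ : ∃ bd : (Fin N → Fin N → ℂ) → ℝ,
      bd = fun X => b X * (D (X i j) * Oth R i j X) := ⟨_, rfl⟩
  have hbd1 : ∀ X, bd X = b X * (∏ i, ∏ j, R i j (X i j)) -
      b X * ∏ i, ∏ j, R' i j (X i j) := by
    intro X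
    rw [hbd, hD]
    dsimp only
    rw [w_split R i j X, w_split R' i j X, hoth X]
    ring
  have hi1 := bw_int hb hB h
  have hi2 := bw_int hb hB h'
  have hbdi : Integrable bd := by
    have := hi1.sub hi2
    refine this.congr (Filter.Eventually.of_forall fun X => ?_)
    exact (hbd1 X).symm
  have hgoal : (∫ X, b X * ∏ i, ∏ j, R i j (X i j)) - (∫ X, b X * ∏ i, ∏ j, R' i j (X i j)) =
      ∫ X, bd X := by
    rw [← integral_sub hi1 hi2]
    exact integral_congr_ae (Filter.Eventually.of_forall fun X => (hbd1 X).symm)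
  -- the two functions on the product
  obtain ⟨Ps, hPs⟩ : ∃ Ps : (Fin N → Fin N → ℂ) × ℂ → ℝ,
      Ps = fun p => W p.1 * (b (rep p.1 i j p.2) * D p.2) := ⟨_, rfl⟩
  obtain ⟨Ps', hPs'⟩ : ∃ Ps' : (Fin N → Fin N → ℂ) × ℂ → ℝ,
      Ps' = fun p => bd p.1 * R i j p.2 := ⟨_, rfl⟩
  have hcomp : ∀ p, Ps' (tau i j p) = Ps p := by
    intro p
    rw [hPs, hPs', hbd, hW]
    dsimp only
    rw [w_split R i j p.1]
    show b (rep p.1 i j p.2) * (D (rep p.1 i j p.2 i j) * Oth R i j (rep p.1 i j p.2)) *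
      R i j (p.1 i j) = _
    rw [oth_rep, rep_apply, if_pos ⟨rfl, rfl⟩]
    ring
  have hPi' : Integrable Ps' (volume.prod volume) := by
    rw [hPs']
    exact hbdi.mul_prod (h i j).2.1
  have hmp : MeasurePreserving (tau i j) (volume.prod volume) (volume.prod volume) := tau_mp i j
  have hPi : Integrable Ps (volume.prod volume) := by
    have := (hmp.integrable_comp hPi'.aestronglyMeasurable).2 hPi'
    refine this.congr (Filter.Eventually.of_forall fun p => ?_)
    exact hcomp p
  have hint : ∫ p, Ps p ∂(volume.prod volume) = ∫ p, Ps' p ∂(volume.prod volume) := by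
    have h1 := integral_map (μ := (volume : Measure ((Fin N → Fin N → ℂ))).prod
      (volume : Measure ℂ)) (φ := tau i j) hmp.measurable.aemeasurable
      (f := Ps') (by rw [hmp.map_eq]; exact hPi'.aestronglyMeasurable)
    rw [hmp.map_eq] at h1
    rw [h1]
    exact integral_congr_ae (Filter.Eventually.of_forall fun p => (hcomp p).symm)
  have h2 : ∫ p, Ps' p ∂(volume.prod volume) = ∫ X, bd X := by
    rw [hPs', integral_prod_mul, (h i j).2.2, mul_one]
  have h3 : ∫ p, Ps p ∂(volume.prod volume) =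
      ∫ X, W X * ∫ t, b (rep X i j t) * D t := by
    rw [integral_prod _ hPi]
    refine integral_congr_ae (Filter.Eventually.of_forall fun X => ?_)
    rw [hPs]
    dsimp only
    rw [integral_const_mul]
  rw [hgoal, ← h2, ← hint, h3]
  have hWi : Integrable W := by rw [hW]; exact (w_int h).1
  have hW0 : ∀ X, 0 ≤ W X := by
    intro X
    rw [hW]
    exact Finset.prod_nonneg fun i _ => Finset.prod_nonneg fun j _ => (h i j).1 _
  have hle := norm_integral_le_of_norm_le (μ := (volume : Measure (Fin N → Fin N → ℂ)))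
    (f := fun X => W X * ∫ t, b (rep X i j t) * D t) (g := fun X => W X * K)
    (hWi.mul_const K) (by
      filter_upwards [hK] with X hX
      rw [Real.norm_eq_abs, abs_mul, abs_of_nonneg (hW0 X)]
      refine mul_le_mul_of_nonneg_left ?_ (hW0 X)
      rw [hD]
      exact hX)
  rw [Real.norm_eq_abs, integral_mul_const] at hle
  have h5 : ∫ X, W X = 1 := by rw [hW]; exact (w_int h).2
  rwa [h5, one_mul] at hle

/-- TM: changing the factors of a product density one after the other. -/
theorem pf_TM : T_TM := by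
  intro N b P P' B K hK0 hb hB hP hK
  have hd : ∀ i j, Den (P i j) := fun i j =>
    ⟨(hP i j).2.2.1, (hP i j).2.2.2.2.1, (hP i j).2.2.2.2.2.2.1⟩
  have hd' : ∀ i j, Den (P' i j) := fun i j =>
    ⟨(hP i j).2.2.2.1, (hP i j).2.2.2.2.2.1, (hP i j).2.2.2.2.2.2.2⟩
  refine ⟨bw_int hb hB hd, bw_int hb hB hd', ?_⟩
  have key : ∀ s : Finset (Fin N × Fin N),
      |(∫ X, b X * ∏ i, ∏ j, P i j (X i j)) -
        ∫ X : Fin N → Fin N → ℂ, b X * ∏ i, ∏ j,
          (if (i, j) ∈ s then P' i j else P i j) (X i j)| ≤ s.card * K := by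
    intro s
    induction s using Finset.induction_on with
    | empty => simp
    | insert q s hq ih =>
      have hR : ∀ i j, Den (if (i, j) ∈ s then P' i j else P i j) := by
        intro i j
        split_ifs
        · exact hd' i j
        · exact hd i j
      have hR' : ∀ i j, Den (if (i, j) ∈ insert q s then P' i j else P i j) := by
        intro i j
        split_ifs
        · exact hd' i j
        · exact hd i j
      have hs := step (K := K) hb hB hR hR' q.1 q.2 (by
        intro k l hkl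
        have h1 : (k, l) ∈ insert q s ↔ (k, l) ∈ s := by
          rw [Finset.mem_insert]
          constructor
          · rintro (h | h)
            · exact absurd h hkl
            · exact h
          · exact Or.inr
        by_cases h2 : (k, l) ∈ s
        · rw [if_pos h2, if_pos (h1.2 h2)]
        · rw [if_neg h2, if_neg (fun h => h2 (h1.1 h))]) (by
        have h2 : (q.1, q.2) ∉ s := hq
        have h3 : (q.1, q.2) ∈ insert q s := Finset.mem_insert_self _ _
        rw [if_neg h2, if_pos h3]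
        exact hK q.1 q.2)
      rw [Finset.card_insert_of_notMem hq]
      push_cast
      calc |(∫ X, b X * ∏ i, ∏ j, P i j (X i j)) -
        ∫ X : Fin N → Fin N → ℂ, b X * ∏ i, ∏ j,
          (if (i, j) ∈ insert q s then P' i j else P i j) (X i j)| ≤
          |(∫ X, b X * ∏ i, ∏ j, P i j (X i j)) -
        ∫ X : Fin N → Fin N → ℂ, b X * ∏ i, ∏ j,
          (if (i, j) ∈ s then P' i j else P i j) (X i j)| +
          |(∫ X : Fin N → Fin N → ℂ, b X * ∏ i, ∏ j,
          (if (i, j) ∈ s then P' i j else P i j) (X i j)) -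
        ∫ X : Fin N → Fin N → ℂ, b X * ∏ i, ∏ j,
          (if (i, j) ∈ insert q s then P' i j else P i j) (X i j)| := abs_sub_le _ _ _
        _ ≤ s.card * K + K := add_le_add ih hs
        _ = ((s.card : ℝ) + 1) * K := by ring
  have h := key Finset.univ
  simp only [Finset.mem_univ, if_true, Finset.card_univ, Fintype.card_prod,
    Fintype.card_fin] at h
  push_cast at h
  calc _ ≤ _ := h
    _ = N ^ 2 * K := by ring

end

end Pool.Agent.H69.EQ
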