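import Pool.Agent.H92.EQ.TF1

set_option autoImplicit false

namespace Pool.Agent.H69.EQ

open Pool.Agent.H92.EQ

open scoped BigOperators ComplexConjugate ContDiff ComplexOrder

theorem prod_two {m : ℕ} (f : Fin m → ℂ) {j j' : Fin m} (h : j ≠ j') :
    ∏ i, f i = f j * f j' * ∏ i ∈ (Finset.univ.erase j).erase j', f i := by
  rw [← Finset.mul_prod_erase Finset.univ f (Finset.mem_univ j),
    ← Finset.mul_prod_erase (Finset.univ.erase j) f
      (Finset.mem_erase.2 ⟨h.symm, Finset.mem_univ j'⟩), mul_assoc]

/-- A14: swapping the left vectors of two rank one slots. -/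
theorem pf_A14 : T_A14 := by
  intro ι _ _ p m S H j j' x x' y y' hjj
  unfold mixD
  let τ : Equiv.Perm (Fin p ⊕ Fin m) := Equiv.swap (Sum.inr j) (Sum.inr j')
  have hτsign : Equiv.Perm.sign τ = -1 :=
    Equiv.Perm.sign_swap (fun h => hjj (Sum.inr_injective h))
  let σ : ((Fin p ⊕ Fin m) ≃ ι) ≃ ((Fin p ⊕ Fin m) ≃ ι) :=
    { toFun := fun e => τ.trans e
      invFun := fun e => τ.symm.trans e
      left_inv := fun e => by
        ext t
        simp
      right_inv := fun e => by
        ext t
        simp }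
  rw [← Equiv.sum_comp σ (fun e => ∑ e' : (Fin p ⊕ Fin m) ≃ ι,
    ((Equiv.Perm.sign (e.trans e'.symm) : ℤ) : ℂ) *
      S (fun i => e (Sum.inl i)) (fun i => e' (Sum.inl i)) *
      ∏ i, Function.update (Function.update H j (out x' y)) j' (out x y') i
        (e (Sum.inr i)) (e' (Sum.inr i))), ← Finset.sum_neg_distrib]
  refine Finset.sum_congr rfl fun e _ => ?_
  rw [← Finset.sum_neg_distrib]
  refine Finset.sum_congr rfl fun e' _ => ?_
  have hinl : ∀ i : Fin p, (σ e) (Sum.inl i) = e (Sum.inl i) := by
    intro i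
    show e (τ (Sum.inl i)) = e (Sum.inl i)
    congr 1
  have hj : (σ e) (Sum.inr j) = e (Sum.inr j') := by
    show e (τ (Sum.inr j)) = e (Sum.inr j')
    congr 1
    exact Equiv.swap_apply_left _ _
  have hj' : (σ e) (Sum.inr j') = e (Sum.inr j) := by
    show e (τ (Sum.inr j')) = e (Sum.inr j)
    congr 1
    exact Equiv.swap_apply_right _ _
  have hoth : ∀ i : Fin m, i ≠ j → i ≠ j' → (σ e) (Sum.inr i) = e (Sum.inr i) := by
    intro i h1 h2
    show e (τ (Sum.inr i)) = e (Sum.inr i)
    congr 1
    exact Equiv.swap_apply_of_ne_of_ne (fun h => h1 (Sum.inr_injective h))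
      (fun h => h2 (Sum.inr_injective h))
  have hsg : ((Equiv.Perm.sign ((σ e).trans e'.symm) : ℤ) : ℂ) =
      -((Equiv.Perm.sign (e.trans e'.symm) : ℤ) : ℂ) := by
    have h1 : (σ e).trans e'.symm = τ.trans (e.trans e'.symm) := by
      ext t
      rfl
    rw [h1, Equiv.Perm.sign_trans, hτsign]
    push_cast
    ring
  have hS : S (fun i => (σ e) (Sum.inl i)) (fun i => e' (Sum.inl i)) =
      S (fun i => e (Sum.inl i)) (fun i => e' (Sum.inl i)) := by
    congr 1
  rw [prod_two _ hjj, prod_two _ hjj, hsg, hS]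
  have hrest : ∏ i ∈ (Finset.univ.erase j).erase j',
      Function.update (Function.update H j (out x y)) j' (out x' y') i
        (e (Sum.inr i)) (e' (Sum.inr i)) =
      ∏ i ∈ (Finset.univ.erase j).erase j',
      Function.update (Function.update H j (out x' y)) j' (out x y') i
        ((σ e) (Sum.inr i)) (e' (Sum.inr i)) := by
    refine Finset.prod_congr rfl fun i hi => ?_
    obtain ⟨h1, h2⟩ := Finset.mem_erase.1 hi
    have h3 := (Finset.mem_erase.1 h2).1
    rw [Function.update_of_ne h1, Function.update_of_ne h3, Function.update_of_ne h1,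
      Function.update_of_ne h3, hoth i h3 h1]
  rw [hrest, Function.update_self, Function.update_of_ne hjj, Function.update_self,
    Function.update_self, Function.update_of_ne hjj, Function.update_self, hj, hj']
  unfold out
  ring

end Pool.Agent.H69.EQ
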