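import Pool.Agent.H92.EQ.TF1

set_option autoImplicit false

namespace Pool.Agent.H69.EQ

open Pool.Agent.H92.EQ

open scoped BigOperators ComplexConjugate ContDiff ComplexOrder

/-- A15: monotonicity. -/
theorem pf_A15 (h1 : T_A1) (h4 : T_A4) : T_A15 := by
  intro ι _ _ p m S H B hS hH hB
  have hBp : ∀ j, (B j).PosSemidef := by
    intro j
    have h := (hB j).add (hH j)
    rwa [sub_add_cancel] at h
  have key : ∀ s : Finset (Fin m), mixD S H ≤ mixD S (fun j => if j ∈ s then B j else H j) := by
    intro s
    induction s using Finset.induction_on with
    | empty =>
      simp
    | insert j0 s hj0 ih =>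
      refine ih.trans ?_
      obtain ⟨K, hK⟩ : ∃ K : Fin m → Matrix ι ι ℂ, K = fun j => if j ∈ s then B j else H j :=
        ⟨_, rfl⟩
      have hKp : ∀ j, (K j).PosSemidef := by
        intro j
        rw [hK]
        dsimp only
        split_ifs
        · exact hBp j
        · exact hH j
      have e1 : K = Function.update K j0 (H j0) := by
        funext j
        by_cases hj : j = j0
        · subst hj
          rw [Function.update_self, hK]
          dsimp only
          rw [if_neg hj0]
        · rw [Function.update_of_ne hj]
      have e2 : (fun j => if j ∈ insert j0 s then B j else H j) =
          Function.update K j0 (H j0 + (B j0 - H j0)) := by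
        funext j
        by_cases hj : j = j0
        · subst hj
          rw [Function.update_self, if_pos (Finset.mem_insert_self _ _)]
          abel
        · rw [Function.update_of_ne hj, hK]
          dsimp only
          by_cases hs : j ∈ s
          · rw [if_pos (Finset.mem_insert_of_mem hs), if_pos hs]
          · rw [if_neg hs, if_neg]
            intro h
            rcases Finset.mem_insert.1 h with h | h
            · exact hj h
            · exact hs h
      rw [e2, ← hK, (h1 ι p m S S K j0 (H j0) (B j0 - H j0) 1).1, ← e1]
      refine le_add_of_nonneg_right (h4 ι p m S _ hS ?_)
      intro j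
      by_cases hj : j = j0
      · subst hj
        rw [Function.update_self]
        exact hB j
      · rw [Function.update_of_ne hj]
        exact hKp j
  have h := key Finset.univ
  simpa using h

end Pool.Agent.H69.EQ
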