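import Pool.Agent.H92.EQ.TF2

set_option autoImplicit false

namespace Pool.Agent.H69.EQ

open Pool.Agent.H92.EQ

open scoped BigOperators ComplexConjugate ContDiff ComplexOrder
open MeasureTheory

theorem fd_int {ι : Type} [Fintype ι] {f : (ι → ℂ) → ℂ} (hf : ContDiff ℝ 1 f)
    (hc : HasCompactSupport f) (v : ι → ℂ) : Integrable (fun z => fderiv ℝ f z v) := by
  have h1 : Continuous (fun z => fderiv ℝ f z v) :=
    (hf.continuous_fderiv one_ne_zero).clm_apply continuous_const
  refine h1.integrable_of_hasCompactSupport ?_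
  exact hc.fderiv_apply ℝ v

theorem fd_zero {ι : Type} [Fintype ι] {f : (ι → ℂ) → ℂ} (hf : ContDiff ℝ 1 f)
    (hc : HasCompactSupport f) (v : ι → ℂ) : ∫ z, fderiv ℝ f z v = 0 := by
  have h1 := fd_int hf hc v
  have h2 : Integrable f := hf.continuous.integrable_of_hasCompactSupport hc
  have h := integral_mul_fderiv_eq_neg_fderiv_mul_of_integrable (μ := (volume : Measure (ι → ℂ)))
    (f := f) (g := fun _ : ι → ℂ => (1 : ℂ)) (v := v)
    (by simpa using h1) (by simp) (by simpa using h2)
    (fun x _ => (hf.differentiable one_ne_zero) x) (fun x _ => by fun_prop)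
  simp only [mul_one, fderiv_fun_const, Pi.zero_apply, _root_.zero_apply, mul_zero,
    integral_zero] at h
  exact neg_eq_zero.1 h.symm

/-- S0: the integral of a derivative. -/
theorem pf_S0 : T_S0 := by
  intro ι _ _ f a hf hc
  have i1 := fd_int hf hc (Pi.single a 1)
  have i2 := (fd_int hf hc (Pi.single a Complex.I)).const_mul Complex.I
  have e1 := fd_zero hf hc (Pi.single a 1)
  have e2 := fd_zero hf hc (Pi.single a Complex.I)
  unfold wd wdb
  constructor
  · rw [integral_div, integral_sub i1 i2, integral_const_mul, e1, e2]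
    simp
  · rw [integral_div, integral_add i1 i2, integral_const_mul, e1, e2]
    simp

end Pool.Agent.H69.EQ
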