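import Pool.Agent.H92.EQ.TF2

set_option autoImplicit false

namespace Pool.Agent.H69.EQ

open Pool.Agent.H92.EQ

open scoped BigOperators ComplexConjugate ContDiff ComplexOrder
open MeasureTheory

noncomputable section

variable {N : ℕ}

/-- the shell -/
def An (N : ℕ) : Set (Fin N → ℂ) := {z | 0 ≤ ell z ∧ ell z < 1}

theorem nsq_smul (r : ℝ) (z : Fin N → ℂ) : nsq (r • z) = r ^ 2 * nsq z := by
  unfold nsq
  rw [Finset.mul_sum]
  refine Finset.sum_congr rfl fun i _ => ?_
  rw [Pi.smul_apply, norm_smul, mul_pow, Real.norm_eq_abs, sq_abs]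

theorem nsq_pos {z : Fin N → ℂ} (h : z ≠ 0) : 0 < nsq z := by
  unfold nsq
  obtain ⟨i, hi⟩ := Function.ne_iff.1 h
  refine Finset.sum_pos' (fun i _ => by positivity) ⟨i, Finset.mem_univ i, ?_⟩
  have : 0 < ‖z i‖ := norm_pos_iff.2 hi
  positivity

theorem ell_exp (s : ℝ) {z : Fin N → ℂ} (h : z ≠ 0) : ell (Real.exp s • z) = ell z + s := by
  unfold ell
  rw [nsq_smul, Real.log_mul (by positivity) (nsq_pos h).ne', Real.log_pow, Real.log_exp]
  push_cast
  ring

theorem meas_ell : Measurable (ell : (Fin N → ℂ) → ℝ) := by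
  unfold ell nsq
  fun_prop

theorem meas_An : MeasurableSet (An N) :=
  (measurableSet_le measurable_const meas_ell).inter (measurableSet_lt meas_ell measurable_const)

/-- the integrand at the place `exp s • y` -/
def FF (ψ g : (Fin N → ℂ) → ℝ) (α : ℝ) (θ : ℝ → ℝ) (p : ℝ × (Fin N → ℂ)) : ℝ :=
  (An N).indicator ψ p.2 * θ (α * p.1 + (α * ell p.2 + g p.2))

/-- the integrand restricted to the shell of `s` -/
def GG (ψ g : (Fin N → ℂ) → ℝ) (α : ℝ) (θ : ℝ → ℝ) (p : ℝ × (Fin N → ℂ)) : ℝ :=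
  (An N).indicator (fun _ => (1 : ℝ)) (Real.exp (-p.1) • p.2) *
    (ψ p.2 * θ (α * ell p.2 + g p.2))

/-- homogeneous functions -/
structure Hm (ψ g : (Fin N → ℂ) → ℝ) : Prop where
  a : ∀ (r : ℝ) (z : Fin N → ℂ), 0 < r → z ≠ 0 → ψ ((r : ℂ) • z) = (r ^ (2 * N))⁻¹ * ψ z
  b : ∀ (r : ℝ) (z : Fin N → ℂ), 0 < r → z ≠ 0 → g ((r : ℂ) • z) = g z

theorem Hm.abs {ψ g : (Fin N → ℂ) → ℝ} (h : Hm ψ g) : Hm (fun z => |ψ z|) g := by
  refine ⟨fun r z hr hz => ?_, h.b⟩
  rw [h.a r z hr hz, abs_mul, abs_of_pos (by positivity : 0 < (r ^ (2 * N))⁻¹)]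

theorem gg_abs (ψ g : (Fin N → ℂ) → ℝ) (α : ℝ) (θ : ℝ → ℝ) (p : ℝ × (Fin N → ℂ)) :
    ‖GG ψ g α θ p‖ = GG (fun z => |ψ z|) g α (fun t => |θ t|) p := by
  unfold GG
  rw [Real.norm_eq_abs, abs_mul, abs_mul]
  congr 1
  by_cases h : Real.exp (-p.1) • p.2 ∈ An N
  · rw [Set.indicator_of_mem h, abs_one]
  · rw [Set.indicator_of_notMem h, abs_zero]

theorem ff_abs (ψ g : (Fin N → ℂ) → ℝ) (α : ℝ) (θ : ℝ → ℝ) (p : ℝ × (Fin N → ℂ)) :
    ‖FF ψ g α θ p‖ = FF (fun z => |ψ z|) g α (fun t => |θ t|) p := by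
  unfold FF
  rw [Real.norm_eq_abs, abs_mul]
  congr 1
  by_cases h : p.2 ∈ An N
  · rw [Set.indicator_of_mem h, Set.indicator_of_mem h]
  · rw [Set.indicator_of_notMem h, Set.indicator_of_notMem h, abs_zero]

theorem gg_ff {ψ g : (Fin N → ℂ) → ℝ} (h : Hm ψ g) (α : ℝ) (θ : ℝ → ℝ) (s : ℝ)
    {y : Fin N → ℂ} (hy : y ≠ 0) :
    GG ψ g α θ (s, Real.exp s • y) = (Real.exp s ^ (2 * N))⁻¹ * FF ψ g α θ (s, y) := by
  unfold GG FF
  dsimp only
  have h1 : Real.exp (-s) • Real.exp s • y = y := by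
    rw [smul_smul, ← Real.exp_add, neg_add_cancel, Real.exp_zero, one_smul]
  have h2 : (Real.exp s • y) = ((Real.exp s : ℝ) : ℂ) • y := by
    funext i
    simp
  rw [h1, ell_exp s hy]
  have h3 : ψ (Real.exp s • y) = (Real.exp s ^ (2 * N))⁻¹ * ψ y := by
    rw [h2, h.a _ y (Real.exp_pos s) hy]
  have h4 : g (Real.exp s • y) = g y := by
    rw [h2, h.b _ y (Real.exp_pos s) hy]
  rw [h3, h4]
  have h5 : α * (ell y + s) + g y = α * s + (α * ell y + g y) := by ring
  rw [h5]
  by_cases hm : y ∈ An N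
  · rw [Set.indicator_of_mem hm, Set.indicator_of_mem hm]
    ring
  · rw [Set.indicator_of_notMem hm, Set.indicator_of_notMem hm]
    ring

theorem ae_ne0 (hN : 0 < N) : ∀ᵐ z : Fin N → ℂ, z ≠ 0 := by
  have : Nonempty (Fin N) := ⟨⟨0, hN⟩⟩
  exact Measure.ae_ne _ 0

theorem fr : Module.finrank ℝ (Fin N → ℂ) = 2 * N := by
  simp [Module.finrank_pi_fintype, mul_comm]

theorem int_gg (hN : 0 < N) {ψ g : (Fin N → ℂ) → ℝ} (h : Hm ψ g) (α : ℝ) (θ : ℝ → ℝ) (s : ℝ) :
    ∫ z, GG ψ g α θ (s, z) = ∫ y, FF ψ g α θ (s, y) := by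
  have h1 := Measure.integral_comp_smul (volume : Measure (Fin N → ℂ))
    (fun z => GG ψ g α θ (s, z)) (Real.exp s)
  have h2 : ∫ y, GG ψ g α θ (s, Real.exp s • y) =
      ∫ y, (Real.exp s ^ (2 * N))⁻¹ * FF ψ g α θ (s, y) := by
    refine integral_congr_ae ?_
    filter_upwards [ae_ne0 hN] with y hy
    exact gg_ff h α θ s hy
  rw [h2, integral_const_mul, fr, abs_of_pos (by positivity), smul_eq_mul] at h1
  have h3 : (Real.exp s ^ (2 * N))⁻¹ ≠ 0 := by positivity
  exact (mul_left_cancel₀ h3 h1).symm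

theorem itg_gg (hN : 0 < N) {ψ g : (Fin N → ℂ) → ℝ} (h : Hm ψ g) (α : ℝ) (θ : ℝ → ℝ) (s : ℝ)
    (hi : Integrable fun y => FF ψ g α θ (s, y)) : Integrable fun z => GG ψ g α θ (s, z) := by
  rw [← integrable_comp_smul_iff (volume : Measure (Fin N → ℂ)) (fun z => GG ψ g α θ (s, z))
    (Real.exp_pos s).ne']
  refine (hi.const_mul ((Real.exp s ^ (2 * N))⁻¹)).congr ?_
  filter_upwards [ae_ne0 hN] with y hy
  exact (gg_ff h α θ s hy).symm

theorem th_int (θ : ℝ → ℝ) {α : ℝ} (hα : 0 < α) (d : ℝ) :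
    ∫ s, θ (α * s + d) = α⁻¹ * ∫ t, θ t := by
  rw [Measure.integral_comp_mul_left (fun t => θ (t + d)) α, integral_add_right_eq_self,
    abs_of_pos (inv_pos.2 hα), smul_eq_mul]

theorem shell_one {z : Fin N → ℂ} (hz : z ≠ 0) :
    ∫ s, (An N).indicator (fun _ => (1 : ℝ)) (Real.exp (-s) • z) = 1 := by
  have h1 : (fun s : ℝ => (An N).indicator (fun _ => (1 : ℝ)) (Real.exp (-s) • z)) =
      (Set.Ioc (ell z - 1) (ell z)).indicator (fun _ => (1 : ℝ)) := by
    funext s
    have h2 : Real.exp (-s) • z ∈ An N ↔ s ∈ Set.Ioc (ell z - 1) (ell z) := by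
      unfold An
      rw [Set.mem_setOf_eq, ell_exp (-s) hz, Set.mem_Ioc]
      constructor
      · rintro ⟨h3, h4⟩
        exact ⟨by linarith, by linarith⟩
      · rintro ⟨h3, h4⟩
        exact ⟨by linarith, by linarith⟩
    by_cases h3 : Real.exp (-s) • z ∈ An N
    · rw [Set.indicator_of_mem h3, Set.indicator_of_mem (h2.1 h3)]
    · rw [Set.indicator_of_notMem h3, Set.indicator_of_notMem (fun h => h3 (h2.2 h))]
  rw [h1, integral_indicator measurableSet_Ioc]
  simp

/-- S4: radial integration. -/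
theorem pf_S4 : T_S4 := by
  intro N ψ g α θ hN hα hψ hg hψi hh hgh hθ hθi
  have H : Hm ψ g := ⟨hh, hgh⟩
  have hind : Integrable ((An N).indicator ψ) := (integrable_indicator_iff meas_An).2 hψi
  have hFm : Measurable (FF ψ g α θ) := by
    unfold FF
    refine Measurable.mul ((hψ.indicator meas_An).comp measurable_snd) (hθ.comp ?_)
    exact (measurable_fst.const_mul α).add
      (((meas_ell.comp measurable_snd).const_mul α).add (hg.comp measurable_snd))
  have hGm : Measurable (GG ψ g α θ) := by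
    unfold GG
    refine Measurable.mul ?_ ?_
    · refine (measurable_const.indicator meas_An).comp ?_
      exact (Real.measurable_exp.comp measurable_fst.neg).smul measurable_snd
    · exact (hψ.comp measurable_snd).mul
        (hθ.comp (((meas_ell.comp measurable_snd).const_mul α).add (hg.comp measurable_snd)))
  have hFi : Integrable (FF ψ g α θ) (volume.prod volume) := by
    rw [integrable_prod_iff' hFm.aestronglyMeasurable]
    constructor
    · refine Filter.Eventually.of_forall fun y => ?_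
      unfold FF
      dsimp only
      exact ((hθi.comp_add_right (α * ell y + g y)).comp_mul_left' hα.ne').const_mul _
    · simp only [ff_abs]
      unfold FF
      dsimp only
      simp only [integral_const_mul]
      have h1 : ∀ y : Fin N → ℂ, ∫ s, |θ (α * s + (α * ell y + g y))| =
          α⁻¹ * ∫ t, |θ t| := fun y => th_int (fun t => |θ t|) hα _
      simp only [h1]
      refine Integrable.mul_const ?_ _
      refine hind.abs.congr ?_
      refine Filter.Eventually.of_forall fun y => ?_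
      dsimp only
      by_cases h : y ∈ An N
      · rw [Set.indicator_of_mem h, Set.indicator_of_mem h]
      · rw [Set.indicator_of_notMem h, Set.indicator_of_notMem h, abs_zero]
  have hGi : Integrable (GG ψ g α θ) (volume.prod volume) := by
    rw [integrable_prod_iff hGm.aestronglyMeasurable]
    have h1 := (integrable_prod_iff hFm.aestronglyMeasurable).1 hFi
    constructor
    · filter_upwards [h1.1] with s hs
      exact itg_gg hN H α θ s hs
    · refine h1.2.congr (Filter.Eventually.of_forall fun s => ?_)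
      dsimp only
      simp only [gg_abs, ff_abs]
      exact (int_gg hN H.abs α (fun t => |θ t|) s).symm
  have hG1 : (fun z => ∫ s, GG ψ g α θ (s, z)) =ᵐ[volume]
      fun z => ψ z * θ (α * ell z + g z) := by
    filter_upwards [ae_ne0 hN] with z hz
    unfold GG
    dsimp only
    rw [integral_mul_const, shell_one hz, one_mul]
  constructor
  · exact hGi.integral_prod_right.congr hG1
  · calc ∫ z, ψ z * θ (α * ell z + g z) = ∫ z, ∫ s, GG ψ g α θ (s, z) :=
          (integral_congr_ae hG1).symm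
      _ = ∫ s, ∫ z, GG ψ g α θ (s, z) :=
          (integral_integral_swap (f := fun s z => GG ψ g α θ (s, z)) hGi).symm
      _ = ∫ s, ∫ y, FF ψ g α θ (s, y) := by
          refine integral_congr_ae (Filter.Eventually.of_forall fun s => ?_)
          exact int_gg hN H α θ s
      _ = ∫ y, ∫ s, FF ψ g α θ (s, y) :=
          integral_integral_swap (f := fun s y => FF ψ g α θ (s, y)) hFi
      _ = ∫ y, (An N).indicator ψ y * (α⁻¹ * ∫ t, θ t) := by
          refine integral_congr_ae (Filter.Eventually.of_forall fun y => ?_)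
          unfold FF
          dsimp only
          rw [integral_const_mul, th_int θ hα]
      _ = α⁻¹ * (∫ t, θ t) * Iint ψ := by
          rw [integral_mul_const, integral_indicator meas_An]
          unfold Iint An
          ring

end

end Pool.Agent.H69.EQ
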